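import Mathlib

set_option autoImplicit false

open Set Topology Filter

namespace Pool.Agent.Results.MP_6f7bab_an.SpanOscillates

section defs

variable {A : Type} [TopologicalSpace A]

/-- The shift on one-sided sequences. -/
def shift (x : ℕ → A) : ℕ → A := fun n => x (n + 1)

/-- One-sided subshifts: nonempty closed sets mapped into themselves by the shift. -/
structure IsSubshift (X : Set (ℕ → A)) : Prop where
  nonempty : X.Nonempty
  closed : IsClosed X
  invariant : ∀ x ∈ X, shift x ∈ X

/-- `d` is a metric on `S`. -/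
structure IsMetricOn {B : Type} (d : B → B → ℝ) (S : Set B) : Prop where
  eq_zero_iff : ∀ x ∈ S, ∀ y ∈ S, d x y = 0 ↔ x = y
  symm : ∀ x ∈ S, ∀ y ∈ S, d x y = d y x
  triangle : ∀ x ∈ S, ∀ y ∈ S, ∀ z ∈ S, d x z ≤ d x y + d y z

/-- The first index at which `x` and `y` differ (and `0` if `x = y`). -/
noncomputable def firstDiff (x y : ℕ → A) : ℕ := sInf {n | x n ≠ y n}

/-- `D(x, y) = d(x_Δ, y_Δ) k^{-Δ}` with `Δ` the first index of difference; it is `0` for `x = y`
when `d` is a metric. -/
noncomputable def D (d : A → A → ℝ) (k : ℕ) (x y : ℕ → A) : ℝ :=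
  d (x (firstDiff x y)) (y (firstDiff x y)) / (k : ℝ) ^ firstDiff x y

/-- `D_T(x, y) = max_{0 ≤ t < T} D(σ^t x, σ^t y)`. -/
noncomputable def DT (d : A → A → ℝ) (k T : ℕ) (x y : ℕ → A) : ℝ :=
  ⨆ t : Fin T, D d k (shift^[t] x) (shift^[t] y)

/-- `S` is a subset of `X` that is `ε`-spanning for `D_T`. -/
def Spanning (d : A → A → ℝ) (k : ℕ) (X : Set (ℕ → A)) (ε : ℝ) (T : ℕ)
    (S : Finset (ℕ → A)) : Prop :=
  (S : Set (ℕ → A)) ⊆ X ∧ ∀ x ∈ X, ∃ y ∈ S, DT d k T x y ≤ ε

/-- `span(X, ε, D_T)`: the least size of an `ε`-spanning subset. -/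
noncomputable def spn (d : A → A → ℝ) (k : ℕ) (X : Set (ℕ → A)) (ε : ℝ) (T : ℕ) : ℕ :=
  sInf {n | ∃ S : Finset (ℕ → A), Spanning d k X ε T S ∧ S.card = n}

/-- The growth rates `ln span(X, ε, D_T) / T`. -/
noncomputable def rate (d : A → A → ℝ) (k : ℕ) (X : Set (ℕ → A)) (ε : ℝ) (T : ℕ) : EReal :=
  ((Real.log (spn d k X ε T) / T : ℝ) : EReal)

/-- The condition `(P_ε)`: the lower and upper growth rates of spanning sets agree. -/
def P (d : A → A → ℝ) (k : ℕ) (X : Set (ℕ → A)) (ε : ℝ) : Prop :=
  liminf (rate d k X ε) atTop = limsup (rate d k X ε) atTop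

end defs

/-- The alphabet metric on `{0, 1, 2, 3}`: the letter `1` has distance `1` from `0` and `2`, all
other distances are `2`. -/
noncomputable def d (a b : Fin 4) : ℝ :=
  if a = b then 0 else if (a = 1 ∧ b ≠ 3) ∨ (b = 1 ∧ a ≠ 3) then 1 else 2

lemma d_metric : IsMetricOn d univ where
  eq_zero_iff := by
    intro x _ y _
    unfold d
    constructor
    · intro h
      by_contra hne
      rw [if_neg hne] at h
      split_ifs at h <;> norm_num at h
    · intro h
      rw [if_pos h]
  symm := by
    intro x _ y _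
    unfold d
    by_cases h : x = y
    · rw [if_pos h, if_pos h.symm]
    · rw [if_neg h, if_neg (Ne.symm h)]
      congr 1
      rw [eq_iff_iff]
      tauto
  triangle := by
    intro x _ y _ z _
    unfold d
    fin_cases x <;> fin_cases y <;> fin_cases z <;> simp <;> norm_num

lemma d_le (a b : Fin 4) : d a b ≤ 2 := by
  unfold d; split_ifs <;> norm_num

lemma d_nonneg (a b : Fin 4) : 0 ≤ d a b := by
  unfold d; split_ifs <;> norm_num

lemma one_le_d {a b : Fin 4} (h : a ≠ b) : 1 ≤ d a b := by
  unfold d; rw [if_neg h]; split_ifs <;> norm_num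

lemma d_self (a : Fin 4) : d a a = 0 := by simp [d]

lemma d_three {a : Fin 4} (h : d 3 a ≤ 1) : a = 3 := by
  unfold d at h
  fin_cases a <;> simp at h <;> rfl

lemma d_one {a : Fin 4} (h : a ≠ 3) : d a 1 ≤ 1 := by
  unfold d
  fin_cases a <;> simp at h ⊢

lemma d_bit {u v : Fin 4} (hu : u = 0 ∨ u = 2) (hv : v = 0 ∨ v = 2) (h : d u v ≤ 1) : u = v := by
  unfold d at h
  rcases hu with rfl | rfl <;> rcases hv with rfl | rfl <;> simp at h ⊢

/-- The subshift: two letters `3` may occur only at distance `16^(j+1)`, with only letters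
`0, 2` between them. -/
def X : Set (ℕ → Fin 4) :=
  {x | (∀ a b : ℕ, a < b → x a = 3 → x b = 3 → ∃ j : ℕ, b - a = 16 ^ (j + 1)) ∧
    (∀ a i b : ℕ, a < i → i < b → x a = 3 → x b = 3 → (x i = 0 ∨ x i = 2))}

lemma firstDiff_spec {x y : ℕ → Fin 4} (h : x ≠ y) : x (firstDiff x y) ≠ y (firstDiff x y) := by
  have hne : {n | x n ≠ y n}.Nonempty := Function.ne_iff.mp h
  exact Nat.sInf_mem hne

lemma eq_of_lt_firstDiff {x y : ℕ → Fin 4} {n : ℕ} (h : n < firstDiff x y) : x n = y n := by
  by_contra hne
  exact absurd (Nat.sInf_le (show n ∈ {n | x n ≠ y n} from hne)) (not_le.mpr h)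

lemma firstDiff_le {x y : ℕ → Fin 4} {n : ℕ} (h : x n ≠ y n) : firstDiff x y ≤ n :=
  Nat.sInf_le (show n ∈ {n | x n ≠ y n} from h)

lemma D_eq {k : ℕ} {x y : ℕ → Fin 4} {n : ℕ} (hlt : ∀ m < n, x m = y m) (hn : x n ≠ y n) :
    D d k x y = d (x n) (y n) / (k : ℝ) ^ n := by
  have h1 : firstDiff x y = n := by
    refine le_antisymm (firstDiff_le hn) ?_
    by_contra hcon
    push Not at hcon
    exact firstDiff_spec (fun h => hn (congrFun h n)) (hlt _ hcon)
  unfold D
  rw [h1]

lemma D_self (k : ℕ) (x : ℕ → Fin 4) : D d k x x = 0 := by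
  unfold D; rw [d_self, zero_div]

lemma D_metric (k : ℕ) (hk : 1 < k) : IsMetricOn (D d k) X where
  eq_zero_iff := by
    intro x _ y _
    constructor
    · intro h
      by_contra hne
      have h1 := one_le_d (firstDiff_spec hne)
      have hk0 : (0 : ℝ) < k := by positivity
      have h2 : 0 < D d k x y := by
        unfold D
        positivity
      linarith
    · rintro rfl
      exact D_self k x
  symm := by
    intro x _ y _
    have h1 : firstDiff x y = firstDiff y x := by
      unfold firstDiff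
      congr 1
      ext n
      exact ne_comm
    unfold D
    rw [h1, d_metric.symm _ (mem_univ _) _ (mem_univ _)]
  triangle := by
    intro x _ y _ z _
    have hk1 : (1 : ℝ) < k := by exact_mod_cast hk
    have hk0 : (0 : ℝ) < k := by linarith
    have hDnn : ∀ u v : ℕ → Fin 4, 0 ≤ D d k u v := by
      intro u v
      unfold D
      exact div_nonneg (d_nonneg _ _) (by positivity)
    by_cases hxz : x = z
    · subst hxz
      rw [D_self]
      exact add_nonneg (hDnn _ _) (hDnn _ _)
    by_cases hxy : x = y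
    · subst hxy
      rw [D_self, zero_add]
    by_cases hyz : y = z
    · subst hyz
      rw [D_self, add_zero]
    set n := firstDiff x z with hn
    set m₁ := firstDiff x y with hm₁
    set m₂ := firstDiff y z with hm₂
    have hxzn := firstDiff_spec hxz
    rw [← hn] at hxzn
    have hxym := firstDiff_spec hxy
    rw [← hm₁] at hxym
    have hyzm := firstDiff_spec hyz
    rw [← hm₂] at hyzm
    have e1 : D d k x z = d (x n) (z n) / (k : ℝ) ^ n := rfl
    have e2 : D d k x y = d (x m₁) (y m₁) / (k : ℝ) ^ m₁ := rfl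
    have e3 : D d k y z = d (y m₂) (z m₂) / (k : ℝ) ^ m₂ := rfl
    rcases lt_trichotomy m₁ m₂ with h | h | h
    · -- `n = m₁`
      have hyz' : y m₁ = z m₁ := eq_of_lt_firstDiff h
      have : D d k x z = D d k x y := by
        rw [D_eq (n := m₁) (fun m hm => ?_) (by rw [← hyz']; exact hxym), e2, hyz']
        rw [eq_of_lt_firstDiff (x := x) (y := y) hm,
          eq_of_lt_firstDiff (x := y) (y := z) (hm.trans h)]
      rw [this]
      linarith [hDnn y z]
    · rcases lt_trichotomy n m₁ with h' | h' | h'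
      · exfalso
        apply hxzn
        rw [eq_of_lt_firstDiff (x := x) (y := y) h',
          eq_of_lt_firstDiff (x := y) (y := z) (by omega)]
      · rw [e1, e2, e3, ← h, ← h', ← add_div]
        refine div_le_div_of_nonneg_right ?_ (by positivity)
        exact d_metric.triangle _ (mem_univ _) _ (mem_univ _) _ (mem_univ _)
      · rw [e1, e2, e3, ← h, ← add_div]
        have h1 := one_le_d hxym
        have h2 := one_le_d hyzm
        rw [← h] at h2
        calc d (x n) (z n) / (k : ℝ) ^ n ≤ 2 / (k : ℝ) ^ n :=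
              div_le_div_of_nonneg_right (d_le _ _) (by positivity)
          _ ≤ 2 / (k : ℝ) ^ m₁ := by
              refine div_le_div_of_nonneg_left (by norm_num) (by positivity) ?_
              exact pow_le_pow_right₀ hk1.le h'.le
          _ ≤ (d (x m₁) (y m₁) + d (y m₁) (z m₁)) / (k : ℝ) ^ m₁ :=
              div_le_div_of_nonneg_right (by linarith) (by positivity)
    · have hxy' : x m₂ = y m₂ := eq_of_lt_firstDiff h
      have : D d k x z = D d k y z := by
        rw [D_eq (n := m₂) (fun m hm => ?_) (by rw [hxy']; exact hyzm), e3, hxy']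
        rw [eq_of_lt_firstDiff (x := x) (y := y) (hm.trans h),
          eq_of_lt_firstDiff (x := y) (y := z) hm]
      rw [this]
      linarith [hDnn x y]

lemma iterate_shift {A : Type} (n : ℕ) (x : ℕ → A) (i : ℕ) : (shift^[n] x) i = x (i + n) := by
  induction n generalizing x i with
  | zero => simp
  | succ n ih =>
    rw [Function.iterate_succ_apply, ih]
    exact congrArg x (by ring)

/-- For `ε = 1` the distance `D` only sees the zeroth letters. -/
lemma D_le_one_iff (k : ℕ) (hk : 1 < k) (x y : ℕ → Fin 4) : D d k x y ≤ 1 ↔ d (x 0) (y 0) ≤ 1 := by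
  have hk1 : (2 : ℝ) ≤ k := by exact_mod_cast hk
  by_cases h0 : x 0 = y 0
  · rw [h0, d_self]
    refine ⟨fun _ => by norm_num, fun _ => ?_⟩
    by_cases hxy : x = y
    · rw [hxy, D_self]; norm_num
    · have h1 := firstDiff_spec hxy
      have h2 : 1 ≤ firstDiff x y := by
        by_contra hcon
        have : firstDiff x y = 0 := by omega
        rw [this] at h1
        exact h1 h0
      unfold D
      rw [div_le_one (by positivity)]
      calc d (x (firstDiff x y)) (y (firstDiff x y)) ≤ 2 := d_le _ _
        _ ≤ (k : ℝ) ^ 1 := by simpa using hk1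
        _ ≤ (k : ℝ) ^ firstDiff x y := pow_le_pow_right₀ (by linarith) h2
  · rw [D_eq (n := 0) (fun m hm => by omega) h0, pow_zero, div_one]

lemma DT_le_one_iff (k : ℕ) (hk : 1 < k) {T : ℕ} (hT : 0 < T) (x y : ℕ → Fin 4) :
    DT d k T x y ≤ 1 ↔ ∀ t < T, d (x t) (y t) ≤ 1 := by
  have : Nonempty (Fin T) := ⟨⟨0, hT⟩⟩
  unfold DT
  rw [ciSup_le_iff (Set.finite_range _).bddAbove]
  constructor
  · intro h t ht
    have := h ⟨t, ht⟩
    rw [D_le_one_iff k hk, iterate_shift, iterate_shift] at this
    simpa using this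
  · intro h t
    rw [D_le_one_iff k hk, iterate_shift, iterate_shift]
    simpa using h t t.2

lemma subshift_X : IsSubshift X where
  nonempty := ⟨fun _ => 1, by
    constructor
    · intro a b _ h
      simp at h
    · intro a i b _ _ h
      simp at h⟩
  closed := by
    have : X = (⋂ (a : ℕ) (b : ℕ), {x : ℕ → Fin 4 | a < b → x a = 3 → x b = 3 →
        ∃ j : ℕ, b - a = 16 ^ (j + 1)}) ∩ (⋂ (a : ℕ) (i : ℕ) (b : ℕ),
        {x : ℕ → Fin 4 | a < i → i < b → x a = 3 → x b = 3 → (x i = 0 ∨ x i = 2)}) := by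
      ext x
      simp [X]
    rw [this]
    refine (isClosed_iInter fun a => isClosed_iInter fun b => ?_).inter
      (isClosed_iInter fun a => isClosed_iInter fun i => isClosed_iInter fun b => ?_)
    · have hc : Continuous (fun x : ℕ → Fin 4 => (x a, x b)) :=
        (continuous_apply a).prodMk (continuous_apply b)
      exact (isClosed_discrete {p : Fin 4 × Fin 4 | a < b → p.1 = 3 → p.2 = 3 →
        ∃ j : ℕ, b - a = 16 ^ (j + 1)}).preimage hc
    · have hc : Continuous (fun x : ℕ → Fin 4 => (x a, x b, x i)) :=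
        (continuous_apply a).prodMk ((continuous_apply b).prodMk (continuous_apply i))
      exact (isClosed_discrete {p : Fin 4 × Fin 4 × Fin 4 | a < i → i < b → p.1 = 3 →
        p.2.1 = 3 → (p.2.2 = 0 ∨ p.2.2 = 2)}).preimage hc
  invariant := by
    rintro x ⟨h1, h2⟩
    constructor
    · intro a b hab ha hb
      obtain ⟨j, hj⟩ := h1 (a + 1) (b + 1) (by omega) ha hb
      exact ⟨j, by omega⟩
    · intro a i b hai hib ha hb
      exact h2 (a + 1) (i + 1) (b + 1) (by omega) (by omega) ha hb

/-- The letter coding a bit. -/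
def letter (b : Bool) : Fin 4 := if b then 2 else 0

lemma letter_cases (b : Bool) : letter b = 0 ∨ letter b = 2 := by cases b <;> simp [letter]

lemma letter_inj {b c : Bool} (h : letter b = letter c) : b = c := by
  cases b <;> cases c <;> simp [letter] at h ⊢

/-- The point with letter `3` at `a` and at `a + 16^(i+1)`, with the bits `w` in between. -/
def pt (a i : ℕ) (w : ℕ → Bool) : ℕ → Fin 4 := fun n =>
  if n = a ∨ n = a + 16 ^ (i + 1) then 3
  else if a < n ∧ n < a + 16 ^ (i + 1) then letter (w (n - a)) else 1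

lemma pt_eq_three {a i n : ℕ} {w : ℕ → Bool} (h : pt a i w n = 3) :
    n = a ∨ n = a + 16 ^ (i + 1) := by
  unfold pt at h
  by_contra hcon
  rw [if_neg hcon] at h
  split_ifs at h
  · rcases letter_cases (w (n - a)) with h' | h' <;> rw [h'] at h <;> simp at h
  · simp at h

lemma pt_mid {a i n : ℕ} (w : ℕ → Bool) (h1 : a < n) (h2 : n < a + 16 ^ (i + 1)) :
    pt a i w n = letter (w (n - a)) := by
  unfold pt
  rw [if_neg (by omega), if_pos ⟨h1, h2⟩]

lemma pt_mem (a i : ℕ) (w : ℕ → Bool) : pt a i w ∈ X := by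
  have hpos : 0 < 16 ^ (i + 1) := by positivity
  constructor
  · intro b c hbc hb hc
    have h1 := pt_eq_three hb
    have h2 := pt_eq_three hc
    exact ⟨i, by omega⟩
  · intro b n c hbn hnc hb hc
    have h1 := pt_eq_three hb
    have h2 := pt_eq_three hc
    rw [pt_mid w (by omega) (by omega)]
    exact letter_cases _

/-- The point with at most one letter `3`. -/
def pt1 (a : ℕ) : ℕ → Fin 4 := fun n => if n = a then 3 else 1

lemma pt1_mem (a : ℕ) : pt1 a ∈ X := by
  have h : ∀ n, pt1 a n = 3 → n = a := by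
    intro n hn
    unfold pt1 at hn
    by_contra hcon
    rw [if_neg hcon] at hn
    simp at hn
  constructor
  · intro b c hbc hb hc
    have h1 := h b hb
    have h2 := h c hc
    omega
  · intro b n c hbn hnc hb hc
    have h1 := h b hb
    have h2 := h c hc
    omega

/-- An efficient spanning set at the time `16^(j+2)`. -/
lemma exists_spanning (k : ℕ) (hk : 1 < k) (j : ℕ) :
    ∃ S : Finset (ℕ → Fin 4), Spanning d k X 1 (16 ^ (j + 2)) S ∧
      S.card ≤ 2 ^ (4 * 16 ^ (j + 1)) := by
  classical
  set T := 16 ^ (j + 2) with hT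
  set M := 16 ^ (j + 1) with hM
  have hTM : T = 16 * M := by rw [hT, hM]; ring
  have hTpos : 0 < T := by positivity
  let ext : (Fin M → Bool) → ℕ → Bool := fun w n => if h : n < M then w ⟨n, h⟩ else false
  let S1 : Finset (ℕ → Fin 4) := (Finset.range (T + 1)).image pt1
  let S2 : Finset (ℕ → Fin 4) :=
    (Finset.univ : Finset (Fin T × Fin (j + 1) × (Fin M → Bool))).image
      (fun p => pt p.1 p.2.1 (ext p.2.2))
  refine ⟨S1 ∪ S2, ⟨?_, ?_⟩, ?_⟩
  · intro x hx
    rw [Finset.coe_union] at hx
    rcases hx with hx | hx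
    · simp only [S1, Finset.coe_image, mem_image] at hx
      obtain ⟨a, _, rfl⟩ := hx
      exact pt1_mem a
    · simp only [S2, Finset.coe_image, mem_image] at hx
      obtain ⟨p, _, rfl⟩ := hx
      exact pt_mem _ _ _
  · intro x hx
    by_cases h2 : ∃ a b, a < b ∧ b < T ∧ x a = 3 ∧ x b = 3
    · obtain ⟨a, b, hab, hbT, hxa, hxb⟩ := h2
      obtain ⟨i, hi⟩ := hx.1 a b hab hxa hxb
      have hij : i < j + 1 := by
        have : 16 ^ (i + 1) < 16 ^ (j + 2) := by omega
        have := (Nat.pow_lt_pow_iff_right (by norm_num : 1 < 16)).mp this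
        omega
      have hle : 16 ^ (i + 1) ≤ M := Nat.pow_le_pow_right (by norm_num) (by omega)
      refine ⟨pt a i (ext fun n => decide (x (a + n) = 2)), ?_, ?_⟩
      · rw [Finset.mem_union]
        right
        simp only [S2, Finset.mem_image, Finset.mem_univ, true_and]
        exact ⟨(⟨a, by omega⟩, ⟨i, hij⟩, fun n => decide (x (a + n) = 2)), rfl⟩
      · rw [DT_le_one_iff k hk hTpos]
        intro t ht
        by_cases ht1 : t = a ∨ t = a + 16 ^ (i + 1)
        · have h3 : pt a i (ext fun n => decide (x (a + n) = 2)) t = 3 := by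
            unfold pt; rw [if_pos ht1]
          have h4 : x t = 3 := by
            rcases ht1 with rfl | h
            · exact hxa
            · have : t = b := by omega
              rw [this]; exact hxb
          rw [h3, h4, d_self]
          norm_num
        · by_cases ht2 : a < t ∧ t < a + 16 ^ (i + 1)
          · rw [pt_mid _ ht2.1 ht2.2]
            have hlt : t - a < M := by omega
            have h5 : ext (fun n => decide (x (a + n) = 2)) (t - a) = decide (x t = 2) := by
              simp only [ext, dif_pos hlt]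
              have : a + (t - a) = t := by omega
              rw [this]
            rw [h5]
            have h6 := hx.2 a t b ht2.1 (by omega) hxa hxb
            rcases h6 with h6 | h6
            · rw [h6]
              simp [letter, d_self]
            · rw [h6]
              simp [letter, d_self]
          · have h3 : pt a i (ext fun n => decide (x (a + n) = 2)) t = 1 := by
              unfold pt; rw [if_neg ht1, if_neg ht2]
            rw [h3]
            apply d_one
            intro h7
            -- a third letter `3` is impossible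
            rcases lt_trichotomy t a with h8 | h8 | h8
            · have := hx.2 t a b h8 hab h7 hxb
              rw [hxa] at this
              simp at this
            · exact ht1 (Or.inl h8)
            · have h9 : b < t := by omega
              have := hx.2 a b t hab h9 hxa h7
              rw [hxb] at this
              simp at this
    · push Not at h2
      by_cases h1 : ∃ a, a < T ∧ x a = 3
      · obtain ⟨a, haT, hxa⟩ := h1
        refine ⟨pt1 a, ?_, ?_⟩
        · rw [Finset.mem_union]
          left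
          exact Finset.mem_image.mpr ⟨a, by simp; omega, rfl⟩
        · rw [DT_le_one_iff k hk hTpos]
          intro t ht
          unfold pt1
          by_cases hta : t = a
          · subst hta
            rw [if_pos rfl, hxa, d_self]
            norm_num
          · rw [if_neg hta]
            apply d_one
            intro h7
            rcases lt_or_gt_of_ne hta with h8 | h8
            · exact h2 t a h8 haT h7 hxa
            · exact h2 a t h8 ht hxa h7
      · push Not at h1
        refine ⟨pt1 T, ?_, ?_⟩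
        · rw [Finset.mem_union]
          left
          exact Finset.mem_image.mpr ⟨T, by simp, rfl⟩
        · rw [DT_le_one_iff k hk hTpos]
          intro t ht
          unfold pt1
          rw [if_neg (by omega)]
          exact d_one (h1 t ht)
  · have c1 : S1.card ≤ T + 1 := Finset.card_image_le.trans (by simp)
    have c2 : S2.card ≤ T * ((j + 1) * 2 ^ M) := by
      refine Finset.card_image_le.trans ?_
      simp
    have c3 : (S1 ∪ S2).card ≤ (T + 1) + T * ((j + 1) * 2 ^ M) :=
      (Finset.card_union_le _ _).trans (add_le_add c1 c2)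
    have hjT : j + 1 ≤ M := by
      rw [hM]; exact (Nat.lt_pow_self (by norm_num)).le
    have hT3 : T = 2 ^ (4 * (j + 2)) := by
      rw [hT, show (16 : ℕ) = 2 ^ 4 by norm_num, ← pow_mul]
    have h2M : 1 ≤ 2 ^ M := Nat.one_le_two_pow
    have hT256 : 256 ≤ T := by
      rw [hT]
      calc 256 = 16 ^ 2 := by norm_num
        _ ≤ 16 ^ (j + 2) := Nat.pow_le_pow_right (by norm_num) (by omega)
    have c4 : (T + 1) + T * ((j + 1) * 2 ^ M) ≤ T ^ 3 * 2 ^ M := by
      have e1 : T * ((j + 1) * 2 ^ M) ≤ T * (T * 2 ^ M) :=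
        Nat.mul_le_mul_left _ (Nat.mul_le_mul_right _ (by omega))
      have e2 : T + 1 ≤ T * (T * 2 ^ M) := by
        calc T + 1 ≤ T * T := by nlinarith
          _ = T * (T * 1) := by ring
          _ ≤ T * (T * 2 ^ M) := Nat.mul_le_mul_left _ (Nat.mul_le_mul_left _ h2M)
      have e3 : T ^ 3 * 2 ^ M = T * (T * (T * 2 ^ M)) := by ring
      have e4 : 2 * (T * (T * 2 ^ M)) ≤ T * (T * (T * 2 ^ M)) :=
        Nat.mul_le_mul_right _ (by omega)
      omega
    have hexp : 4 * (j + 2) ≤ M := by
      rw [hM]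
      clear_value T M
      clear c1 c2 c3 c4 hT3 hT256 hjT h2M
      induction j with
      | zero => norm_num
      | succ j ih =>
        have := ih
        calc 4 * (j + 1 + 2) ≤ 16 * (4 * (j + 2)) := by omega
          _ ≤ 16 * 16 ^ (j + 1) := Nat.mul_le_mul_left _ (by
              clear * -
              induction j with
              | zero => norm_num
              | succ j ih => rw [pow_succ]; omega)
          _ = 16 ^ (j + 1 + 1) := by ring
    calc (S1 ∪ S2).card ≤ T ^ 3 * 2 ^ M := c3.trans c4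
      _ = 2 ^ (4 * (j + 2) * 3 + M) := by rw [hT3, ← pow_mul, ← pow_add]
      _ ≤ 2 ^ (4 * M) := Nat.pow_le_pow_right (by norm_num) (by omega)

lemma spanning_mono {k T T' : ℕ} (hk : 1 < k) (hT : 0 < T) (h : T ≤ T') {S : Finset (ℕ → Fin 4)}
    (hS : Spanning d k X 1 T' S) : Spanning d k X 1 T S := by
  refine ⟨hS.1, fun x hx => ?_⟩
  obtain ⟨y, hy, hxy⟩ := hS.2 x hx
  refine ⟨y, hy, ?_⟩
  rw [DT_le_one_iff k hk (by omega)] at hxy ⊢
  exact fun t ht => hxy t (by omega)

/-- The lower bound at the time `16^(j+1) + 1`. -/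
lemma le_spanning (k : ℕ) (hk : 1 < k) (j : ℕ) (S : Finset (ℕ → Fin 4))
    (hS : Spanning d k X 1 (16 ^ (j + 1) + 1) S) : 2 ^ (16 ^ (j + 1) - 1) ≤ S.card := by
  classical
  set L := 16 ^ (j + 1) with hL
  have hLpos : 0 < L := by positivity
  let ext : (Fin (L - 1) → Bool) → ℕ → Bool :=
    fun w n => if h : n - 1 < L - 1 then w ⟨n - 1, h⟩ else false
  have hch : ∀ w : Fin (L - 1) → Bool, ∃ y ∈ S, DT d k (L + 1) (pt 0 j (ext w)) y ≤ 1 :=
    fun w => hS.2 _ (pt_mem _ _ _)
  choose y hyS hy using hch
  have hval : ∀ (w : Fin (L - 1) → Bool) (i : Fin (L - 1)), y w (i + 1) = letter (w i) := by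
    intro w i
    have h := hy w
    rw [DT_le_one_iff k hk (by omega)] at h
    have p0 : pt 0 j (ext w) 0 = 3 := by simp [pt]
    have pL : pt 0 j (ext w) L = 3 := by simp [pt, hL]
    have h0 := h 0 (by omega)
    have hLL := h L (by omega)
    rw [p0] at h0
    rw [pL] at hLL
    have y0 := d_three h0
    have yL := d_three hLL
    have hmem := hS.1 (hyS w)
    have hi := i.2
    have h1 := hmem.2 0 (i + 1) L (by omega) (by omega) y0 yL
    have h2 := h (i + 1) (by omega)
    rw [pt_mid (ext w) (by omega) (by omega)] at h2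
    have h3 : ext w ((i : ℕ) + 1 - 0) = w i := by
      simp only [ext]
      have h4 : (i : ℕ) + 1 - 0 - 1 < L - 1 := by omega
      rw [dif_pos h4]
      congr 1
    rw [h3] at h2
    exact (d_bit (letter_cases _) h1 h2).symm
  have hinj : Function.Injective y := by
    intro w w' h
    funext i
    apply letter_inj
    rw [← hval w i, ← hval w' i, h]
  have hcard := Finset.card_le_card_of_injOn (s := (Finset.univ : Finset (Fin (L - 1) → Bool)))
    (t := S) y (fun w _ => hyS w) (hinj.injOn)
  simpa using hcard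

lemma spn_le (k : ℕ) (hk : 1 < k) (j : ℕ) :
    spn d k X 1 (16 ^ (j + 2)) ≤ 2 ^ (4 * 16 ^ (j + 1)) := by
  obtain ⟨S, hS, hcard⟩ := exists_spanning k hk j
  refine le_trans (Nat.sInf_le ?_) hcard
  exact ⟨S, hS, rfl⟩

lemma le_spn (k : ℕ) (hk : 1 < k) (j : ℕ) :
    2 ^ (16 ^ (j + 1) - 1) ≤ spn d k X 1 (16 ^ (j + 1) + 1) := by
  have hne : {n | ∃ S : Finset (ℕ → Fin 4),
      Spanning d k X 1 (16 ^ (j + 1) + 1) S ∧ S.card = n}.Nonempty := by
    obtain ⟨S, hS, _⟩ := exists_spanning k hk j
    refine ⟨S.card, S, spanning_mono hk (Nat.succ_pos _) ?_ hS, rfl⟩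
    have : 0 < 16 ^ (j + 1) := by positivity
    calc 16 ^ (j + 1) + 1 ≤ 16 * 16 ^ (j + 1) := by omega
      _ = 16 ^ (j + 2) := by ring
  obtain ⟨S, hS, hcard⟩ := Nat.sInf_mem hne
  unfold spn
  rw [← hcard]
  exact le_spanning k hk j S hS

/-- **Spanning growth rates need not converge.**
There are a one-sided subshift `X` over an alphabet of four letters and a metric `d` on the
alphabet such that, for every integer `k > 1`, the formula `D` defines a metric on `X` and
condition `(P_1)` fails: the lower and upper exponential growth rates of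
`span(X, 1, D_T)` are different. -/
theorem result :
    ∃ (X : Set (ℕ → Fin 4)) (d : Fin 4 → Fin 4 → ℝ), IsSubshift X ∧ IsMetricOn d univ ∧
      ∀ k : ℕ, 1 < k → IsMetricOn (D d k) X ∧ ¬ P d k X 1 := by
  refine ⟨X, d, subshift_X, d_metric, fun k hk => ⟨D_metric k hk, fun hP => ?_⟩⟩
  have hlog2 : 0 < Real.log 2 := Real.log_pos (by norm_num)
  have h1 : liminf (rate d k X 1) atTop ≤ ((Real.log 2 / 4 : ℝ) : EReal) := by
    refine liminf_le_of_frequently_le' ?_
    rw [frequently_atTop]
    intro a
    refine ⟨16 ^ (a + 2), ?_, ?_⟩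
    · exact (Nat.lt_pow_self (by norm_num)).le.trans
        (Nat.pow_le_pow_right (by norm_num) (by omega))
    · unfold rate
      rw [EReal.coe_le_coe_iff]
      have hT : (0 : ℝ) < ((16 ^ (a + 2) : ℕ) : ℝ) := by positivity
      rw [div_le_iff₀ hT]
      have hs := spn_le k hk a
      have hs' : ((spn d k X 1 (16 ^ (a + 2)) : ℕ) : ℝ) ≤ (2 : ℝ) ^ (4 * 16 ^ (a + 1)) := by
        exact_mod_cast hs
      by_cases h0 : spn d k X 1 (16 ^ (a + 2)) = 0
      · rw [h0]
        simp only [Nat.cast_zero, Real.log_zero]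
        positivity
      · have hpos : (0 : ℝ) < ((spn d k X 1 (16 ^ (a + 2)) : ℕ) : ℝ) := by
          exact_mod_cast Nat.pos_of_ne_zero h0
        calc Real.log ((spn d k X 1 (16 ^ (a + 2)) : ℕ) : ℝ)
            ≤ Real.log ((2 : ℝ) ^ (4 * 16 ^ (a + 1))) := Real.log_le_log hpos hs'
          _ = ((4 * 16 ^ (a + 1) : ℕ) : ℝ) * Real.log 2 := Real.log_pow _ _
          _ = Real.log 2 / 4 * ((16 ^ (a + 2) : ℕ) : ℝ) := by
              push_cast
              ring
  have h2 : ((Real.log 2 / 2 : ℝ) : EReal) ≤ limsup (rate d k X 1) atTop := by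
    refine le_limsup_of_frequently_le' ?_
    rw [frequently_atTop]
    intro a
    refine ⟨16 ^ (a + 1) + 1, ?_, ?_⟩
    · have : a + 1 < 16 ^ (a + 1) := Nat.lt_pow_self (by norm_num)
      omega
    · unfold rate
      rw [EReal.coe_le_coe_iff]
      have hT : (0 : ℝ) < ((16 ^ (a + 1) + 1 : ℕ) : ℝ) := by positivity
      rw [le_div_iff₀ hT]
      have hs := le_spn k hk a
      have hs' : (2 : ℝ) ^ (16 ^ (a + 1) - 1) ≤ ((spn d k X 1 (16 ^ (a + 1) + 1) : ℕ) : ℝ) := by
        exact_mod_cast hs
      have h16 : 16 ≤ 16 ^ (a + 1) := by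
        calc 16 = 16 ^ 1 := by norm_num
          _ ≤ 16 ^ (a + 1) := Nat.pow_le_pow_right (by norm_num) (by omega)
      calc Real.log 2 / 2 * ((16 ^ (a + 1) + 1 : ℕ) : ℝ)
          ≤ ((16 ^ (a + 1) - 1 : ℕ) : ℝ) * Real.log 2 := by
            have e1 : 16 ^ (a + 1) + 1 ≤ 2 * (16 ^ (a + 1) - 1) := by omega
            have e2 : ((16 ^ (a + 1) + 1 : ℕ) : ℝ) ≤ 2 * ((16 ^ (a + 1) - 1 : ℕ) : ℝ) := by
              exact_mod_cast e1
            nlinarith
        _ = Real.log ((2 : ℝ) ^ (16 ^ (a + 1) - 1)) := (Real.log_pow _ _).symm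
        _ ≤ Real.log ((spn d k X 1 (16 ^ (a + 1) + 1) : ℕ) : ℝ) :=
            Real.log_le_log (by positivity) hs'
  have h3 : ((Real.log 2 / 2 : ℝ) : EReal) ≤ ((Real.log 2 / 4 : ℝ) : EReal) := by
    refine h2.trans ?_
    rw [P] at hP
    rw [← hP]
    exact h1
  rw [EReal.coe_le_coe_iff] at h3
  linarith

end Pool.Agent.Results.MP_6f7bab_an.SpanOscillates
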